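import Mathlib
import Pool.Agent.Y934.BEF.Stm

/-!
# Project BEF: two comparisons of Gaussian terms (DomAStm and DomBStm)
-/

set_option autoImplicit false

namespace Pool.Agent.Y758.BEF

open Filter Topology Pool.Agent.Y934.BEF

theorem pexp (P : Polynomial ℝ) : ∃ D : ℝ, 0 ≤ D ∧ ∀ t : ℝ, |P.eval t| ≤ D * Real.exp |t| := by
  refine ⟨∑ i ∈ Finset.range (P.natDegree + 1), |P.coeff i| * (i.factorial : ℝ),
    Finset.sum_nonneg fun i _ => by positivity, fun t => ?_⟩
  rw [Polynomial.eval_eq_sum_range, Finset.sum_mul]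
  refine (Finset.abs_sum_le_sum_abs _ _).trans (Finset.sum_le_sum fun i _ => ?_)
  rw [abs_mul, abs_pow, mul_assoc]
  refine mul_le_mul_of_nonneg_left ?_ (abs_nonneg _)
  have h := Real.pow_div_factorial_le_exp |t| (abs_nonneg t) i
  rw [div_le_iff₀ (by positivity)] at h
  linarith

theorem quad (c d : ℝ) (hd : 0 < d) :
    Tendsto (fun g : ℝ => c * g - d * g ^ 2) atTop atBot := by
  refine tendsto_atBot_mono' _ ?_ tendsto_neg_atTop_atBot
  filter_upwards [eventually_ge_atTop ((c + 1) / d), eventually_ge_atTop 0] with g h1 h2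
  rw [div_le_iff₀ hd] at h1
  nlinarith

theorem domA : DomAStm := by
  intro P S κ k j hk hj hκ U μ hμ
  obtain ⟨D, hD, hP⟩ := pexp P
  obtain ⟨a, ha⟩ : ∃ a : ℝ, a = (j : ℝ) - k := ⟨_, rfl⟩
  obtain ⟨δ, hδ⟩ : ∃ δ : ℝ, δ = κ j + a ^ 2 - κ k := ⟨_, rfl⟩
  have hδ0 : 0 < δ := by
    rw [hδ, ha]
    linarith
  have hpi := Real.pi_pos
  have h1 := quad (|a| + 2 * Real.pi * (|a| * |U|)) (Real.pi * δ) (mul_pos hpi hδ0)
  have h2 := (Real.tendsto_exp_atBot.comp h1).const_mul (D * Real.exp |U|)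
  rw [mul_zero] at h2
  filter_upwards [h2.eventually (gt_mem_nhds hμ), eventually_ge_atTop 0] with g hg hg0 u hu
  have hg' : D * Real.exp |U| * Real.exp ((|a| + 2 * Real.pi * (|a| * |U|)) * g -
    Real.pi * δ * g ^ 2) < μ := hg
  have hU : 0 ≤ U := (abs_nonneg u).trans hu
  rw [abs_of_nonneg hU] at hg'
  have hcj : cw S κ g j = Real.exp (-(Real.pi * κ j * g ^ 2)) := by
    unfold cw
    rw [Set.indicator_of_mem hj]
  have hck : cw S κ g k = Real.exp (-(Real.pi * κ k * g ^ 2)) := by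
    unfold cw
    rw [Set.indicator_of_mem hk]
  obtain ⟨t, ht⟩ : ∃ t : ℝ, t = a * g - u := ⟨_, rfl⟩
  have ht' : (j : ℝ) * g - (k * g + u) = t := by
    rw [ht, ha]
    ring
  rw [hcj, hck, ht', abs_mul, abs_of_pos (Real.exp_pos _)]
  unfold gw
  rw [abs_mul, abs_of_pos (Real.exp_pos (-(Real.pi * t ^ 2)))]
  have hta : |t| ≤ |a| * g + U := by
    rw [ht]
    calc |a * g - u| ≤ |a * g| + |u| := abs_sub _ _
      _ ≤ |a| * g + U := by
        rw [abs_mul, abs_of_nonneg hg0]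
        linarith
  have hau : a * u ≤ |a| * U := by
    calc a * u ≤ |a * u| := le_abs_self _
      _ = |a| * |u| := abs_mul _ _
      _ ≤ |a| * U := mul_le_mul_of_nonneg_left hu (abs_nonneg _)
  have ht2 : a ^ 2 * g ^ 2 - 2 * (|a| * U) * g ≤ t ^ 2 := by
    have h3 := mul_le_mul_of_nonneg_right hau hg0
    rw [ht]
    nlinarith [sq_nonneg u]
  have hexp : -(Real.pi * κ j * g ^ 2) + (|t| + -(Real.pi * t ^ 2)) ≤
      U + (((|a| + 2 * Real.pi * (|a| * U)) * g - Real.pi * δ * g ^ 2) +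
        -(Real.pi * κ k * g ^ 2)) := by
    have h3 := mul_le_mul_of_nonneg_left ht2 hpi.le
    have h4 : κ j = δ + κ k - a ^ 2 := by
      rw [hδ]
      ring
    rw [h4]
    nlinarith
  calc Real.exp (-(Real.pi * κ j * g ^ 2)) * (|P.eval t| * Real.exp (-(Real.pi * t ^ 2)))
      ≤ Real.exp (-(Real.pi * κ j * g ^ 2)) * (D * Real.exp |t| *
          Real.exp (-(Real.pi * t ^ 2))) := by
        refine mul_le_mul_of_nonneg_left ?_ (Real.exp_pos _).le
        exact mul_le_mul_of_nonneg_right (hP t) (Real.exp_pos _).le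
    _ = D * Real.exp (-(Real.pi * κ j * g ^ 2) + (|t| + -(Real.pi * t ^ 2))) := by
        rw [Real.exp_add, Real.exp_add]
        ring
    _ ≤ D * Real.exp (U + (((|a| + 2 * Real.pi * (|a| * U)) * g - Real.pi * δ * g ^ 2) +
        -(Real.pi * κ k * g ^ 2))) :=
        mul_le_mul_of_nonneg_left (Real.exp_le_exp.2 hexp) hD
    _ = D * Real.exp U * Real.exp ((|a| + 2 * Real.pi * (|a| * U)) * g -
          Real.pi * δ * g ^ 2) * Real.exp (-(Real.pi * κ k * g ^ 2)) := by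
        rw [Real.exp_add, Real.exp_add]
        ring
    _ ≤ μ * Real.exp (-(Real.pi * κ k * g ^ 2)) :=
        mul_le_mul_of_nonneg_right hg'.le (Real.exp_pos _).le

theorem lb (Q : Polynomial ℝ) (hQ : Q ≠ 0) :
    ∃ c : ℝ, 0 < c ∧ ∀ᶠ g : ℝ in atTop, c ≤ |Q.eval g| := by
  by_cases h : 0 < Q.degree
  · exact ⟨1, one_pos, (Polynomial.abs_tendsto_atTop Q h).eventually_ge_atTop 1⟩
  · have h1 := Polynomial.eq_C_of_degree_le_zero (not_lt.1 h)
    have h2 : Q.coeff 0 ≠ 0 := by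
      intro h3
      rw [h3, Polynomial.C_0] at h1
      exact hQ h1
    refine ⟨|Q.coeff 0|, abs_pos.2 h2, Eventually.of_forall fun g => ?_⟩
    rw [h1]
    simp

theorem ub (Q : Polynomial ℝ) (c : ℝ) (hc : 0 < c) :
    Tendsto (fun g : ℝ => Q.eval g * Real.exp (-(c * g))) atTop (𝓝 0) := by
  have h1 := (Polynomial.tendsto_div_exp_atTop (Q.comp (Polynomial.C c⁻¹ * Polynomial.X))).comp
    ((tendsto_id (α := ℝ)).const_mul_atTop hc)
  refine h1.congr fun g => ?_
  show (Q.comp (Polynomial.C c⁻¹ * Polynomial.X)).eval (c * g) / Real.exp (c * g) = _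
  rw [Polynomial.eval_comp, Polynomial.eval_mul, Polynomial.eval_C, Polynomial.eval_X,
    inv_mul_cancel_left₀ hc.ne', Real.exp_neg, div_eq_mul_inv]

theorem side (P : Polynomial ℝ) (hP : P ≠ 0) (κ1 κ2 α β V : ℝ) (hE : κ1 + α ^ 2 = κ2 + β ^ 2)
    (hβ : β ≠ 0) (hc : 0 < (α - β) * V) :
    ∀ᶠ g : ℝ in atTop, 4 * |Real.exp (-(Real.pi * κ1 * g ^ 2)) * gw P (α * g + V)| ≤
      |Real.exp (-(Real.pi * κ2 * g ^ 2)) * gw P (β * g + V)| := by
  have hpi := Real.pi_pos
  obtain ⟨c, hcc⟩ : ∃ c : ℝ, c = 2 * Real.pi * ((α - β) * V) := ⟨_, rfl⟩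
  have hc0 : 0 < c := by
    rw [hcc]
    positivity
  obtain ⟨Qa, hQa⟩ : ∃ Q : Polynomial ℝ, Q = P.comp (Polynomial.C α * Polynomial.X +
    Polynomial.C V) := ⟨_, rfl⟩
  obtain ⟨Qb, hQb⟩ : ∃ Q : Polynomial ℝ, Q = P.comp (Polynomial.C β * Polynomial.X +
    Polynomial.C V) := ⟨_, rfl⟩
  have ea : ∀ g, Qa.eval g = P.eval (α * g + V) := fun g => by
    rw [hQa]
    simp
  have eb : ∀ g, Qb.eval g = P.eval (β * g + V) := fun g => by
    rw [hQb]
    simp
  have hQ : Qb ≠ 0 := by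
    rw [hQb]
    intro h0
    rw [Polynomial.comp_eq_zero_iff] at h0
    rcases h0 with h0 | ⟨-, h0⟩
    · exact hP h0
    · have h1 := congrArg (fun q => Polynomial.coeff q 1) h0
      simp at h1
      exact hβ h1
  obtain ⟨c0, hc1, hlb⟩ := lb Qb hQ
  have hub := (ub Qa c hc0).abs.const_mul 4
  rw [abs_zero, mul_zero] at hub
  filter_upwards [hlb, hub.eventually (gt_mem_nhds hc1)] with g h1 h2
  have h3 : 4 * (|P.eval (α * g + V)| * Real.exp (-(c * g))) ≤ |P.eval (β * g + V)| := by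
    rw [← ea, ← eb]
    have h4 : |Qa.eval g * Real.exp (-(c * g))| = |Qa.eval g| * Real.exp (-(c * g)) := by
      rw [abs_mul, abs_of_pos (Real.exp_pos _)]
    rw [h4] at h2
    linarith
  have h5 : Real.exp (-(Real.pi * κ1 * g ^ 2)) * Real.exp (-(Real.pi * (α * g + V) ^ 2)) =
      Real.exp (-(c * g)) * (Real.exp (-(Real.pi * κ2 * g ^ 2)) *
        Real.exp (-(Real.pi * (β * g + V) ^ 2))) := by
    rw [← Real.exp_add, ← Real.exp_add, ← Real.exp_add]
    congr 1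
    have h6 : κ1 = κ2 + β ^ 2 - α ^ 2 := by linarith
    rw [h6, hcc]
    ring
  have h7 : 0 ≤ Real.exp (-(Real.pi * κ2 * g ^ 2)) * Real.exp (-(Real.pi * (β * g + V) ^ 2)) := by
    positivity
  unfold gw
  rw [abs_mul, abs_mul, abs_mul, abs_mul, abs_of_pos (Real.exp_pos _),
    abs_of_pos (Real.exp_pos _), abs_of_pos (Real.exp_pos _), abs_of_pos (Real.exp_pos _)]
  calc 4 * (Real.exp (-(Real.pi * κ1 * g ^ 2)) * (|P.eval (α * g + V)| *
        Real.exp (-(Real.pi * (α * g + V) ^ 2))))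
      = 4 * |P.eval (α * g + V)| * (Real.exp (-(Real.pi * κ1 * g ^ 2)) *
        Real.exp (-(Real.pi * (α * g + V) ^ 2))) := by ring
    _ = 4 * (|P.eval (α * g + V)| * Real.exp (-(c * g))) *
        (Real.exp (-(Real.pi * κ2 * g ^ 2)) * Real.exp (-(Real.pi * (β * g + V) ^ 2))) := by
        rw [h5]
        ring
    _ ≤ |P.eval (β * g + V)| *
        (Real.exp (-(Real.pi * κ2 * g ^ 2)) * Real.exp (-(Real.pi * (β * g + V) ^ 2))) :=
        mul_le_mul_of_nonneg_right h3 h7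
    _ = _ := by ring

theorem domB : DomBStm := by
  intro P hP S κ k j hk hj y hky hyj hE U hU
  have hcj : ∀ g, cw S κ g j = Real.exp (-(Real.pi * κ j * g ^ 2)) := fun g => by
    unfold cw
    rw [Set.indicator_of_mem hj]
  have hck : ∀ g, cw S κ g k = Real.exp (-(Real.pi * κ k * g ^ 2)) := fun g => by
    unfold cw
    rw [Set.indicator_of_mem hk]
  have hkj : (0 : ℝ) < j - k := by linarith
  have s1 := side P hP (κ j) (κ k) (j - y) (k - y) U hE.symm (by linarith : (k : ℝ) - y < 0).ne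
    (by
      have : 0 < ((j : ℝ) - k) * U := mul_pos hkj hU
      linarith)
  have s2 := side P hP (κ k) (κ j) (k - y) (j - y) (-U) hE (by linarith : 0 < (j : ℝ) - y).ne'
    (by
      have : 0 < ((j : ℝ) - k) * U := mul_pos hkj hU
      linarith)
  filter_upwards [s1, s2] with g h1 h2
  have e1 : (j : ℝ) * g - (y * g - U) = (j - y) * g + U := by ring
  have e2 : (k : ℝ) * g - (y * g - U) = (k - y) * g + U := by ring
  have e3 : (j : ℝ) * g - (y * g + U) = (j - y) * g + -U := by ring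
  have e4 : (k : ℝ) * g - (y * g + U) = (k - y) * g + -U := by ring
  rw [hcj, hck, e1, e2, e3, e4]
  exact ⟨h1, h2⟩

end Pool.Agent.Y758.BEF
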